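import Pool.Agent.helper52.T1.SpecS

/-!
Row `t1:YSP` (MP_07c750, project T1): self-similarity of the unstable cells.
-/

set_option autoImplicit false

open scoped MatrixGroups ContDiff Topology UpperHalfPlane ComplexConjugate
open UpperHalfPlane MeasureTheory Filter Set

namespace Pool.Agent.T1

open Pool.Agent.RS Pool.Agent.MS Pool.Agent.HV

noncomputable section

theorem YSP_mem (W : Set SL(2, ℝ)) (N0 k : ℕ) (p : ℕ → Bool) (h : SL(2, ℝ)) (c : ℕ) : c ∈ YC W N0 k p h ↔ c < N0 ^ k ∧ ∀ i < k, p i = true →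
    ∃ v : ℝ, ((c / N0 ^ (k - 1 - i) : ℕ) : ℝ) ≤ v * N0 ^ (i + 1) ∧ v * N0 ^ (i + 1) < ((c / N0 ^ (k - 1 - i) : ℕ) : ℝ) + 1 ∧ h * lM (4 * v) * aM (i * Real.log N0) ∈ W := by
  classical
  unfold YC
  rw [Finset.mem_filter, Finset.mem_range]

theorem YSP_proof (h1 : RS.GLC_stmt) : YSP_stmt := by
  intro W N0 k1 k2 p h c hN hc
  obtain ⟨-, -, -, -, -, -, -, -, -, -, haM, -, hlM, -, -, -, -, -, hla, -⟩ := h1
  have hN0 : 0 < N0 := hN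
  rw [YSP_mem] at hc
  obtain ⟨hc1, hc2⟩ := hc
  rw [YSP_mem, YSP_mem]
  refine ⟨⟨?_, fun i hi hp => ?_⟩, Nat.mod_lt _ (pow_pos hN0 _), fun i hi hp => ?_⟩
  · refine Nat.div_lt_of_lt_mul ?_
    rwa [← pow_add, add_comm]
  · obtain ⟨v, hv1, hv2, hv3⟩ := hc2 i (by omega) hp
    have e1 : c / N0 ^ k2 / N0 ^ (k1 - 1 - i) = c / N0 ^ (k1 + k2 - 1 - i) := by
      rw [Nat.div_div_eq_div_mul, ← pow_add]
      congr 2
      omega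
    rw [e1]
    exact ⟨v, hv1, hv2, hv3⟩
  · obtain ⟨v, hv1, hv2, hv3⟩ := hc2 (k1 + i) (by omega) hp
    have e1 : k1 + k2 - 1 - (k1 + i) = k2 - 1 - i := by omega
    rw [e1] at hv1 hv2
    have e2 : c / N0 ^ (k2 - 1 - i) = N0 ^ (i + 1) * (c / N0 ^ k2) + c % N0 ^ k2 / N0 ^ (k2 - 1 - i) := by
      have e3 : N0 ^ k2 = N0 ^ (k2 - 1 - i) * N0 ^ (i + 1) := by
        rw [← pow_add]
        congr 1
        omega
      have e4 : c = N0 ^ (k2 - 1 - i) * (N0 ^ (i + 1) * (c / N0 ^ k2)) + c % N0 ^ k2 := by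
        rw [← mul_assoc, ← e3]
        exact (Nat.div_add_mod c (N0 ^ k2)).symm
      calc c / N0 ^ (k2 - 1 - i) = (N0 ^ (k2 - 1 - i) * (N0 ^ (i + 1) * (c / N0 ^ k2)) + c % N0 ^ k2) / N0 ^ (k2 - 1 - i) := by rw [← e4]
        _ = _ := Nat.mul_add_div (pow_pos hN0 _) _ _
    have e5 : ((c / N0 ^ (k2 - 1 - i) : ℕ) : ℝ) = (N0 : ℝ) ^ (i + 1) * ((c / N0 ^ k2 : ℕ) : ℝ) + ((c % N0 ^ k2 / N0 ^ (k2 - 1 - i) : ℕ) : ℝ) := by
      rw [e2]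
      push_cast
      rfl
    rw [e5] at hv1 hv2
    have hNr : (0 : ℝ) < N0 := by exact_mod_cast hN0
    have hK : (0 : ℝ) < (N0 : ℝ) ^ k1 := pow_pos hNr _
    have e6 : (v * (N0 : ℝ) ^ k1 - ((c / N0 ^ k2 : ℕ) : ℝ)) * (N0 : ℝ) ^ (i + 1) = v * (N0 : ℝ) ^ (k1 + i + 1) - (N0 : ℝ) ^ (i + 1) * ((c / N0 ^ k2 : ℕ) : ℝ) := by
      rw [show k1 + i + 1 = k1 + (i + 1) by ring, pow_add]
      ring
    refine ⟨v * (N0 : ℝ) ^ k1 - ((c / N0 ^ k2 : ℕ) : ℝ), by rw [e6]; linarith, by rw [e6]; linarith, ?_⟩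
    have e7 : Real.exp ((k1 : ℝ) * Real.log N0) = (N0 : ℝ) ^ k1 := by
      rw [mul_comm, Real.exp_mul, Real.exp_log hNr, Real.rpow_natCast]
    have e8 : 4 * v = 4 * (((c / N0 ^ k2 : ℕ) : ℝ) / (N0 : ℝ) ^ k1) + 4 * (v * (N0 : ℝ) ^ k1 - ((c / N0 ^ k2 : ℕ) : ℝ)) / (N0 : ℝ) ^ k1 := by
      field_simp
      ring
    have e9 : h * lM (4 * v) * aM (((k1 + i : ℕ) : ℝ) * Real.log N0) =
        h * lM (4 * (((c / N0 ^ k2 : ℕ) : ℝ) / (N0 : ℝ) ^ k1)) * aM ((k1 : ℝ) * Real.log N0) * lM (4 * (v * (N0 : ℝ) ^ k1 - ((c / N0 ^ k2 : ℕ) : ℝ))) * aM ((i : ℝ) * Real.log N0) := by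
      have f1 : aM (((k1 + i : ℕ) : ℝ) * Real.log N0) = aM ((k1 : ℝ) * Real.log N0) * aM ((i : ℝ) * Real.log N0) := by
        rw [← haM]
        congr 1
        push_cast
        ring
      have f2 : lM (4 * (v * (N0 : ℝ) ^ k1 - ((c / N0 ^ k2 : ℕ) : ℝ)) / (N0 : ℝ) ^ k1) * aM ((k1 : ℝ) * Real.log N0) =
          aM ((k1 : ℝ) * Real.log N0) * lM (4 * (v * (N0 : ℝ) ^ k1 - ((c / N0 ^ k2 : ℕ) : ℝ))) := by
        rw [hla, e7]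
        congr 2
        field_simp
      rw [f1, e8, hlM]
      calc h * (lM (4 * (((c / N0 ^ k2 : ℕ) : ℝ) / (N0 : ℝ) ^ k1)) * lM (4 * (v * (N0 : ℝ) ^ k1 - ((c / N0 ^ k2 : ℕ) : ℝ)) / (N0 : ℝ) ^ k1)) * (aM ((k1 : ℝ) * Real.log N0) * aM ((i : ℝ) * Real.log N0))
          = h * lM (4 * (((c / N0 ^ k2 : ℕ) : ℝ) / (N0 : ℝ) ^ k1)) * (lM (4 * (v * (N0 : ℝ) ^ k1 - ((c / N0 ^ k2 : ℕ) : ℝ)) / (N0 : ℝ) ^ k1) * aM ((k1 : ℝ) * Real.log N0)) * aM ((i : ℝ) * Real.log N0) := by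
            simp only [mul_assoc]
        _ = _ := by
            rw [f2]
            simp only [mul_assoc]
    rw [e9] at hv3
    exact hv3

end

end Pool.Agent.T1
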